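import Pool.Agent.Mg.Fcd0eb5.Gfa2b38

namespace Pool.Agent.Results.MP_cd0eb5_co.Disproof

open Pool.Agent.MP_cd0eb5_co

/-- There is a finite nonempty set `B` of permutations such that the proper class `A = Av(B)`
has `c_A < s_A`. -/
theorem result :
    ∃ B : Set AnyPerm, B.Finite ∧ B.Nonempty ∧ cConst (Av B) < sConst (Av B) :=
  main

end Pool.Agent.Results.MP_cd0eb5_co.Disproof
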