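import Pool.Agent.MP_cd0eb5_co.LB.Main

namespace Pool.Agent.Results.MP_cd0eb5_co.LowerBound

open Pool.Agent.MP_cd0eb5_co

/-- For every set `B` of permutations, the class `A = Av(B)` has `s_A ≤ 24 c_A`. -/
theorem result (B : Set AnyPerm) : sConst (Av B) ≤ 24 * cConst (Av B) :=
  LB.main B

end Pool.Agent.Results.MP_cd0eb5_co.LowerBound
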